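import Pool.Agent.H81.PC.Inter

namespace Pool.Agent.H81.PC

open Polynomial

universe u v w

variable {A : Type u} {F : Type v} [CommRing A] [Field F] [Algebra A F]
  [Algebra ℂ A] [Algebra ℂ F] [IsScalarTower ℂ A F]

/-- a curve with a cusp outside the convex hull of its intersection with another curve -/
theorem not_proper_of_cusp [IsDomain A] [IsFractionRing A F] [IsIntegrallyClosed A]
    [IsNoetherianRing A] {𝔭 : Ideal A} {B : Subalgebra A F} (hc : IsComplement 𝔭 B)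
    [UniqueFactorizationMonoid B] (φ : A →ₐ[ℂ] ℂ[X]) (hφ : RingHom.ker φ = 𝔭) (x₀ : ℂ)
    (hcusp : ∀ f : A, (derivative (φ f)).eval x₀ = 0) (𝔢 : Ideal A) [h𝔢 : 𝔢.IsPrime]
    (h1 : 𝔢.height = 1) (hne : ∃ z : ℂ, ∀ f ∈ 𝔢, (φ f).eval z = 0)
    (hconv : x₀ ∉ convexHull ℝ {z : ℂ | ∀ f ∈ 𝔢, (φ f).eval z = 0}) (p : A) (q : B) :
    ¬ ProperPair ℂ (algebraMap A B p) q := by
  intro hint
  have h𝔢𝔭 : 𝔢 ≠ 𝔭 := by
    rintro rfl
    apply hconv
    apply subset_convexHull
    intro f hf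
    rw [← hφ, RingHom.mem_ker] at hf
    have h2 : φ f = 0 := hf
    rw [h2, eval_zero]
  obtain ⟨τ, hτ⟩ := inter_principal hc hint 𝔢 h1 h𝔢𝔭
  have hpt : ∀ x : ℂ, (φ τ).eval x = 0 ↔ ∀ f ∈ 𝔢, (φ f).eval x = 0 := by
    intro x
    let ψ : A →+* ℂ := (evalRingHom x).comp (φ : A →+* ℂ[X])
    have h2 := hτ (RingHom.ker ψ) (RingHom.ker_isPrime ψ) (by
      intro f hf
      rw [← hφ, RingHom.mem_ker] at hf
      have h3 : φ f = 0 := hf
      rw [RingHom.mem_ker]
      change (φ f).eval x = 0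
      rw [h3, eval_zero])
    exact h2
  have hset : {z : ℂ | ∀ f ∈ 𝔢, (φ f).eval z = 0} = {z : ℂ | (φ τ).eval z = 0} := by
    ext z
    exact (hpt z).symm
  rw [hset] at hconv
  have hφ0 : φ τ ≠ 0 := by
    intro h0
    apply hconv
    apply subset_convexHull
    change (φ τ).eval x₀ = 0
    rw [h0, eval_zero]
  have hroot : ((φ τ).rootSet ℂ) = {z : ℂ | (φ τ).eval z = 0} := by
    ext z
    rw [mem_rootSet_of_ne hφ0]
    simp
  obtain ⟨z, hz⟩ := hne
  have hz' : (φ τ).eval z = 0 := (hpt z).mpr hz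
  have hdeg : 0 < (φ τ).degree := by
    by_contra hcon
    have h2 := eq_C_of_degree_le_zero (not_lt.mp hcon)
    rw [h2, eval_C] at hz'
    rw [hz', map_zero] at h2
    exact hφ0 h2
  rw [← hroot] at hconv
  apply hconv
  apply rootSet_derivative_subset_convexHull_rootSet hdeg
  rw [mem_rootSet_of_ne]
  · simpa using hcusp τ
  · intro h0
    have := derivative_eq_zero.mp h0
    rw [natDegree_eq_zero_iff_degree_le_zero] at this
    exact absurd hdeg (not_lt.mpr this)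

end Pool.Agent.H81.PC
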