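import Mathlib

namespace Pool.Agent.H81.PC

universe u v w

/-- The map `(p, q)` to the affine plane over `k` is proper: the ring is integral over the
subring generated by `p` and `q` over `k`. -/
def ProperPair (k : Type u) {R : Type v} [Field k] [CommRing R] [Algebra k R] (p q : R) : Prop :=
  ∀ r : R, IsIntegral (Algebra.adjoin k {p, q}) r

/-- `p` is not a constant. -/
def NonConst (k : Type u) {R : Type v} [Field k] [CommRing R] [Algebra k R] (p : R) : Prop :=
  ∀ a : k, p ≠ algebraMap k R a

/-- Jelonek's property: every non-constant `p` has some `q` for which `(p, q)` is proper. -/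
def PropertyP (k : Type u) (R : Type v) [Field k] [CommRing R] [Algebra k R] : Prop :=
  ∀ p : R, NonConst k p → ∃ q : R, ProperPair k p q

/-- For `A ⊆ B ⊆ F = Frac A` and a prime ideal `𝔭` of `A`: the map `Spec B → Spec A` is an open
immersion onto the complement of `V(𝔭)`. -/
structure IsComplement {A : Type u} {F : Type v} [CommRing A] [Field F] [Algebra A F]
    (𝔭 : Ideal A) (B : Subalgebra A F) : Prop where
  prime : 𝔭.IsPrime
  map_eq : 𝔭.map (algebraMap A B) = ⊤
  regular : ∀ 𝔮 : Ideal A, 𝔮.IsPrime → ¬ 𝔭 ≤ 𝔮 → ∀ f ∈ B,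
    ∃ a d : A, d ∉ 𝔮 ∧ f * algebraMap A F d = algebraMap A F a

end Pool.Agent.H81.PC
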