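import Pool.Agent.H81.PC.Main

namespace Pool.Agent.H81.PC

open Polynomial

universe u v w

section

variable {A : Type u} {F : Type v} [CommRing A] [Field F] [Algebra A F]
  [IsDomain A] [IsFractionRing A F]

/-- an equation of a curve on the complement -/
theorem exists_eqn {𝔭 : Ideal A} {B : Subalgebra A F} (hc : IsComplement 𝔭 B)
    [UniqueFactorizationMonoid B] (𝔢 : Ideal A) [h𝔢 : 𝔢.IsPrime] (h1 : 𝔢.height = 1)
    (h𝔭𝔢 : ¬ 𝔭 ≤ 𝔢) {V : ValuationSubring F}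
    (hV1 : ∀ a : A, V.valuation (algebraMap A F a) ≤ 1)
    (hV2 : ∀ a ∈ 𝔢, V.valuation (algebraMap A F a) < 1)
    (hV3 : ∀ a ∉ 𝔢, V.valuation (algebraMap A F a) = 1) :
    ∃ r : B, (r : F) ≠ 0 ∧ V.valuation (r : F) < 1 ∧
      ∀ 𝔮 : Ideal A, 𝔮.IsPrime → ¬ 𝔭 ≤ 𝔮 → ¬ 𝔢 ≤ 𝔮 → UnitAt 𝔮 (r : F) := by
  have hinj : Function.Injective (algebraMap A F) := IsFractionRing.injective A F
  have hBV : ∀ b : B, V.valuation (b : F) ≤ 1 := by
    intro b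
    obtain ⟨a, d, hd, had⟩ := hc.regular 𝔢 h𝔢 h𝔭𝔢 b b.2
    have h2 := congrArg V.valuation had
    rw [map_mul, hV3 d hd, mul_one] at h2
    rw [h2]
    exact hV1 a
  let j : B →+* V := B.val.toRingHom.codRestrict V.toSubring
    (fun b => (V.valuation_le_one_iff _).mp (hBV b))
  let I : Ideal B := (IsLocalRing.maximalIdeal V).comap j
  have hI : ∀ b : B, b ∈ I ↔ V.valuation (b : F) < 1 := fun b =>
    V.valuation_lt_one_iff (j b)
  have hIp : I.IsPrime := Ideal.comap_isPrime j _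
  have h𝔢0 : 𝔢 ≠ ⊥ := by
    rintro rfl
    rw [Ideal.height_bot] at h1
    exact zero_ne_one h1
  obtain ⟨e0, he0, he00⟩ := Submodule.exists_mem_ne_zero_of_ne_bot h𝔢0
  have hIbot : I ≠ ⊥ := by
    intro h0
    have h2 : algebraMap A B e0 ∈ I := (hI _).mpr (hV2 e0 he0)
    rw [h0, Ideal.mem_bot] at h2
    apply he00
    apply hinj
    rw [map_zero]
    exact congrArg Subtype.val h2
  obtain ⟨r, hrI, hr⟩ := hIp.exists_mem_prime_of_ne_bot hIbot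
  have hr0 : (r : F) ≠ 0 := by
    intro h0
    exact hr.ne_zero (Subtype.ext h0)
  have hrv : V.valuation (r : F) < 1 := (hI r).mp hrI
  -- the contraction of the ideal generated by `r`
  have hspan : (Ideal.span {r}).IsPrime := (Ideal.span_singleton_prime hr.ne_zero).mpr hr
  have hcontr : (Ideal.span {r}).comap (algebraMap A B) = 𝔢 := by
    by_contra hne
    have hle : (Ideal.span {r}).comap (algebraMap A B) ≤ 𝔢 := by
      intro a ha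
      rw [Ideal.mem_comap, Ideal.mem_span_singleton] at ha
      obtain ⟨b, hb⟩ := ha
      by_contra ha𝔢
      have h2 : algebraMap A F a = (r : F) * (b : F) := congrArg Subtype.val hb
      have h3 := congrArg V.valuation h2
      rw [hV3 a ha𝔢, map_mul] at h3
      have h4 : V.valuation (r : F) * V.valuation (b : F) < 1 := by
        calc V.valuation (r : F) * V.valuation (b : F) ≤ V.valuation (r : F) * 1 := by
              gcongr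
              exact hBV b
          _ < 1 := by rw [mul_one]; exact hrv
      rw [← h3] at h4
      exact lt_irrefl _ h4
    have hne0 : (Ideal.span {r}).comap (algebraMap A B) ≠ ⊥ := by
      obtain ⟨a, d, hd, had⟩ := hc.regular 𝔢 h𝔢 h𝔭𝔢 r r.2
      intro h0
      have h2 : a ∈ (Ideal.span {r}).comap (algebraMap A B) := by
        rw [Ideal.mem_comap, Ideal.mem_span_singleton]
        exact ⟨algebraMap A B d, Subtype.ext had.symm⟩
      rw [h0, Ideal.mem_bot] at h2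
      rw [h2, map_zero, mul_eq_zero] at had
      exact had.elim hr0 (alg_ne_zero hd)
    exact not_height (Ideal.comap_isPrime _ _) h𝔢 hne0 (lt_of_le_of_ne hle hne) h1.le
  have hdvd : ∀ x ∈ 𝔢, r ∣ algebraMap A B x := by
    intro x hx
    rw [← hcontr, Ideal.mem_comap, Ideal.mem_span_singleton] at hx
    exact hx
  refine ⟨r, hr0, hrv, ?_⟩
  intro 𝔮 h𝔮 h𝔭𝔮 h𝔢𝔮
  obtain ⟨a, d, hd, had⟩ := hc.regular 𝔮 h𝔮 h𝔭𝔮 r r.2
  refine ⟨a, d, ?_, hd, had⟩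
  intro ha
  obtain ⟨x, hx, hx𝔮⟩ := SetLike.not_le_iff_exists.mp h𝔢𝔮
  obtain ⟨b, hb⟩ := hdvd x hx
  obtain ⟨a', d', hd', had'⟩ := hc.regular 𝔮 h𝔮 h𝔭𝔮 b b.2
  have h2 : algebraMap A F x = (r : F) * (b : F) := congrArg Subtype.val hb
  have h3 : x * (d * d') = a * a' := by
    apply hinj
    rw [map_mul, map_mul, map_mul, ← had, ← had', h2]
    ring
  have h4 : x * (d * d') ∈ 𝔮 := by
    rw [h3]
    exact 𝔮.mul_mem_right _ ha
  rcases h𝔮.mem_or_mem h4 with h5 | h5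
  · exact hx𝔮 h5
  · exact (h𝔮.mem_or_mem h5).elim hd hd'

end

variable {k : Type w} {A : Type u} {F : Type v} [Field k] [CommRing A] [Field F] [Algebra A F]
  [Algebra k A] [Algebra k F] [IsScalarTower k A F]

/-- If `(p, q)` is proper on the factorial complement and `p` is regular on the completion, then
every curve of the completion meets `V(𝔭)` in the zero set of a function. -/
theorem inter_principal [IsDomain A] [IsFractionRing A F] [IsIntegrallyClosed A]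
    [IsNoetherianRing A] {𝔭 : Ideal A} {B : Subalgebra A F} (hc : IsComplement 𝔭 B)
    [UniqueFactorizationMonoid B] {p : A} {q : B}
    (hint : ProperPair k (algebraMap A B p) q) (𝔢 : Ideal A) [h𝔢 : 𝔢.IsPrime]
    (h1 : 𝔢.height = 1) (hne : 𝔢 ≠ 𝔭) :
    ∃ τ : A, ∀ 𝔪 : Ideal A, 𝔪.IsPrime → 𝔭 ≤ 𝔪 → (τ ∈ 𝔪 ↔ 𝔢 ≤ 𝔪) := by
  have hinj : Function.Injective (algebraMap A F) := IsFractionRing.injective A F
  have h𝔭p := hc.prime
  have h𝔭0 : 𝔭 ≠ ⊥ := by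
    intro h0
    have := hc.map_eq
    rw [h0, Ideal.map_bot] at this
    exact bot_ne_top this
  have h𝔭𝔢 : ¬ 𝔭 ≤ 𝔢 := by
    intro hle
    exact not_height h𝔭p h𝔢 h𝔭0 (lt_of_le_of_ne hle (Ne.symm hne)) h1.le
  obtain ⟨V, hV1, hV2, hV3⟩ := exists_dom (F := F) 𝔢
  obtain ⟨r, hr0, hrv, hru⟩ := exists_eqn hc 𝔢 h1 h𝔭𝔢 hV1 hV2 hV3
  -- the exponents
  obtain ⟨a0, d0, hd0, had0, ha0⟩ := step_one hc hint 𝔭 h𝔭p le_rfl
  have ha0𝔭 : a0 ∈ 𝔭 := (ha0 𝔭 h𝔭p le_rfl).mpr le_rfl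
  have hd0' : algebraMap A F d0 ≠ 0 := alg_ne_zero hd0
  have ha00 : a0 ≠ 0 := by
    rintro rfl
    rw [map_zero, mul_zero] at had0
    exact hd0' had0.symm
  have ha00' : algebraMap A F a0 ≠ 0 := by
    intro h0
    exact ha00 (hinj (by rw [h0, map_zero]))
  have hmin : 𝔭 ∈ (Ideal.span {a0}).minimalPrimes := by
    refine ⟨⟨h𝔭p, ?_⟩, ?_⟩
    · rw [Ideal.span_le, Set.singleton_subset_iff]
      exact ha0𝔭
    · rintro 𝔮 ⟨h𝔮, ha𝔮⟩ hle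
      exact (ha0 𝔮 h𝔮 hle).mp (ha𝔮 (Ideal.mem_span_singleton_self a0))
  obtain ⟨m, hm, hm0, hunif⟩ := exists_unif 𝔭 ha00 hmin F
  have hm0' : algebraMap A F m ≠ 0 := by
    intro h0
    exact hm0 (hinj (by rw [h0, map_zero]))
  have hq0 : (q : F) ≠ 0 := by
    intro h0
    rw [h0, zero_mul] at had0
    exact hd0' had0.symm
  obtain ⟨n, u, e, hu, he, hue⟩ := hunif a0 ha00
  have hn : n ≠ 0 := by
    rintro rfl
    rw [pow_zero, one_mul] at hue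
    apply hu
    rw [← hue]
    exact 𝔭.mul_mem_right _ ha0𝔭
  have hqm : UnitAt 𝔭 ((q : F) * algebraMap A F m ^ n) := by
    refine ⟨d0 * e, u, fun h => (h𝔭p.mem_or_mem h).elim hd0 he, hu, ?_⟩
    have h2 : algebraMap A F a0 * algebraMap A F e =
        algebraMap A F m ^ n * algebraMap A F u := by
      rw [← map_mul, hue, map_mul, map_pow]
    calc (q : F) * algebraMap A F m ^ n * algebraMap A F u
        = (q : F) * (algebraMap A F m ^ n * algebraMap A F u) := by ring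
      _ = ((q : F) * algebraMap A F a0) * algebraMap A F e := by rw [← h2]; ring
      _ = algebraMap A F (d0 * e) := by rw [had0, map_mul]
  obtain ⟨x, y, hy, hxy⟩ := IsFractionRing.div_surjective (A := A) (r : F)
  have hy0 : y ≠ 0 := nonZeroDivisors.ne_zero hy
  have hx0 : x ≠ 0 := by
    rintro rfl
    rw [map_zero, zero_div] at hxy
    exact hr0 hxy.symm
  obtain ⟨i, u1, e1, hu1, he1, hue1⟩ := hunif x hx0
  obtain ⟨i', u2, e2, hu2, he2, hue2⟩ := hunif y hy0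
  have hrm : UnitAt 𝔭 ((r : F) * algebraMap A F m ^ (-((i : ℤ) - i'))) := by
    refine ⟨u1 * e2, e1 * u2, fun h => (h𝔭p.mem_or_mem h).elim hu1 he2,
      fun h => (h𝔭p.mem_or_mem h).elim he1 hu2, ?_⟩
    have h2 : algebraMap A F x * algebraMap A F e1 =
        algebraMap A F m ^ i * algebraMap A F u1 := by
      rw [← map_mul, hue1, map_mul, map_pow]
    have h3 : algebraMap A F y * algebraMap A F e2 =
        algebraMap A F m ^ i' * algebraMap A F u2 := by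
      rw [← map_mul, hue2, map_mul, map_pow]
    have hy' : algebraMap A F y ≠ 0 := by
      intro h0
      exact hy0 (hinj (by rw [h0, map_zero]))
    have h4 : algebraMap A F m ^ (-((i : ℤ) - i')) =
        algebraMap A F m ^ i' / algebraMap A F m ^ i := by
      rw [neg_sub, zpow_sub₀ hm0', zpow_natCast, zpow_natCast]
    rw [← hxy, h4, map_mul, map_mul]
    field_simp
    calc algebraMap A F x * algebraMap A F m ^ i' * algebraMap A F e1 * algebraMap A F u2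
        = (algebraMap A F x * algebraMap A F e1) *
          (algebraMap A F m ^ i' * algebraMap A F u2) := by ring
      _ = algebraMap A F m ^ i * algebraMap A F u1 *
          (algebraMap A F y * algebraMap A F e2) := by rw [h2, h3]
      _ = _ := by ring
  set l : ℤ := (i : ℤ) - i' with hl
  set t : F := (r : F) ^ n * (q : F) ^ l with ht
  have ht𝔭 : UnitAt 𝔭 t := by
    have h2 := (hrm.pow n).mul (hqm.zpow l)
    have h3 : ((r : F) * algebraMap A F m ^ (-l)) ^ n * ((q : F) * algebraMap A F m ^ n) ^ l = t := by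
      rw [mul_pow, mul_zpow, ht, ← zpow_natCast (algebraMap A F m ^ (-l)) n, ← zpow_mul,
        ← zpow_natCast (algebraMap A F m) n, ← zpow_mul]
      have h4 : algebraMap A F m ^ (-l * (n : ℤ)) * algebraMap A F m ^ ((n : ℤ) * l) = 1 := by
        rw [← zpow_add₀ hm0']
        rw [show -l * (n : ℤ) + (n : ℤ) * l = 0 by ring, zpow_zero]
      calc (r : F) ^ n * algebraMap A F m ^ (-l * (n : ℤ)) *
            ((q : F) ^ l * algebraMap A F m ^ ((n : ℤ) * l))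
          = (r : F) ^ n * (q : F) ^ l *
            (algebraMap A F m ^ (-l * (n : ℤ)) * algebraMap A F m ^ ((n : ℤ) * l)) := by ring
        _ = _ := by rw [h4, mul_one]
    rwa [h3] at h2
  have hqu : ∀ 𝔪 : Ideal A, 𝔪.IsPrime → 𝔭 ≤ 𝔪 → ∀ 𝔮 : Ideal A, 𝔮.IsPrime → 𝔮 ≤ 𝔪 →
      ¬ 𝔭 ≤ 𝔮 → UnitAt 𝔮 (q : F) := by
    intro 𝔪 h𝔪 h𝔭𝔪 𝔮 h𝔮 h𝔮𝔪 h𝔭𝔮
    obtain ⟨a, d, hd, had, hiff⟩ := step_one hc hint 𝔪 h𝔪 h𝔭𝔪
    exact ⟨d, a, fun h => hd (h𝔮𝔪 h), fun h => h𝔭𝔮 ((hiff 𝔮 h𝔮 h𝔮𝔪).mp h), had⟩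
  have hcase : ∀ 𝔮 : Ideal A, 𝔮.IsPrime → 𝔮.height ≤ 1 → 𝔭 ≤ 𝔮 → UnitAt 𝔮 t := by
    intro 𝔮 h𝔮 hh h𝔭𝔮
    have : 𝔮 = 𝔭 := by
      by_contra hne'
      exact not_height h𝔭p h𝔮 h𝔭0 (lt_of_le_of_ne h𝔭𝔮 (Ne.symm hne')) hh
    rw [this]
    exact ht𝔭
  have hreg : ∀ 𝔪 : Ideal A, 𝔪.IsPrime → 𝔭 ≤ 𝔪 → RegAt 𝔪 t := by
    intro 𝔪 h𝔪 h𝔭𝔪
    apply regAt_of_height 𝔪 t
    intro 𝔮 h𝔮 h𝔮𝔪 hh
    by_cases h𝔭𝔮 : 𝔭 ≤ 𝔮
    · exact (hcase 𝔮 h𝔮 hh h𝔭𝔮).regAt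
    · have h2 : RegAt 𝔮 (r : F) := hc.regular 𝔮 h𝔮 h𝔭𝔮 r r.2
      exact (h2.pow n).mul ((hqu 𝔪 h𝔪 h𝔭𝔪 𝔮 h𝔮 h𝔮𝔪 h𝔭𝔮).zpow l).regAt
  have hregi : ∀ 𝔪 : Ideal A, 𝔪.IsPrime → 𝔭 ≤ 𝔪 → ¬ 𝔢 ≤ 𝔪 → RegAt 𝔪 t⁻¹ := by
    intro 𝔪 h𝔪 h𝔭𝔪 h𝔢𝔪
    apply regAt_of_height 𝔪 t⁻¹
    intro 𝔮 h𝔮 h𝔮𝔪 hh
    by_cases h𝔭𝔮 : 𝔭 ≤ 𝔮
    · exact (hcase 𝔮 h𝔮 hh h𝔭𝔮).inv.regAt
    · have h2 : UnitAt 𝔮 (r : F) := hru 𝔮 h𝔮 h𝔭𝔮 (fun h => h𝔢𝔪 (h.trans h𝔮𝔪))
      exact ((h2.pow n).mul ((hqu 𝔪 h𝔪 h𝔭𝔪 𝔮 h𝔮 h𝔮𝔪 h𝔭𝔮).zpow l)).inv.regAt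
  -- the function on the completion
  let D : Ideal A := (LinearMap.range (Algebra.linearMap A F)).colon {t}
  have hD : ∀ d : A, d ∈ D ↔ ∃ a : A, t * algebraMap A F d = algebraMap A F a := by
    intro d
    simp only [D, Submodule.mem_colon_singleton, LinearMap.mem_range, Algebra.linearMap_apply,
      Algebra.smul_def]
    constructor
    · rintro ⟨a, ha⟩
      exact ⟨a, by rw [ha, mul_comm]⟩
    · rintro ⟨a, ha⟩
      exact ⟨a, by rw [← ha, mul_comm]⟩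
  have hsup : D ⊔ 𝔭 = ⊤ := by
    by_contra hne'
    obtain ⟨𝔪, h𝔪, hle⟩ := Ideal.exists_le_maximal _ hne'
    obtain ⟨a, d, hd, had⟩ := hreg 𝔪 h𝔪.isPrime (le_sup_right.trans hle)
    exact hd (hle (Ideal.mem_sup_left ((hD d).mpr ⟨a, had⟩)))
  obtain ⟨d, hd, π, hπ, hdπ⟩ := Submodule.mem_sup.mp (show (1 : A) ∈ D ⊔ 𝔭 by rw [hsup]; trivial)
  obtain ⟨τ, hτ⟩ := (hD d).mp hd
  have hd𝔪 : ∀ 𝔪 : Ideal A, 𝔪.IsPrime → 𝔭 ≤ 𝔪 → d ∉ 𝔪 := by
    intro 𝔪 h𝔪 h𝔭𝔪 hd'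
    apply h𝔪.ne_top
    rw [Ideal.eq_top_iff_one, ← hdπ]
    exact 𝔪.add_mem hd' (h𝔭𝔪 hπ)
  have ht0 : t ≠ 0 := mul_ne_zero (pow_ne_zero _ hr0) (zpow_ne_zero _ hq0)
  refine ⟨τ, fun 𝔪 h𝔪 h𝔭𝔪 => ⟨fun hτ𝔪 => ?_, fun h𝔢𝔪 => ?_⟩⟩
  · by_contra h𝔢𝔪
    obtain ⟨a', d', hd', had'⟩ := hregi 𝔪 h𝔪 h𝔭𝔪 h𝔢𝔪
    have h2 : τ * a' = d * d' := by
      apply hinj
      rw [map_mul, map_mul, ← hτ, ← had']
      field_simp
    have h3 : d * d' ∈ 𝔪 := by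
      rw [← h2]
      exact 𝔪.mul_mem_right _ hτ𝔪
    exact (h𝔪.mem_or_mem h3).elim (hd𝔪 𝔪 h𝔪 h𝔭𝔪) hd'
  · apply h𝔢𝔪
    by_contra hτ𝔢
    obtain ⟨a1, d1, ha1, hd1, had1⟩ := hqu 𝔪 h𝔪 h𝔭𝔪 𝔢 h𝔢 h𝔢𝔪 h𝔭𝔢
    have hqv : V.valuation (q : F) = 1 := by
      have h2 := congrArg V.valuation had1
      rwa [map_mul, hV3 a1 ha1, hV3 d1 hd1, mul_one] at h2
    have htv : V.valuation t < 1 := by
      rw [ht, map_mul, map_pow, map_zpow₀, hqv, one_zpow, mul_one]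
      exact pow_lt_one₀ zero_le hrv hn
    have h2 := congrArg V.valuation hτ
    rw [map_mul, hV3 τ hτ𝔢] at h2
    have h3 : V.valuation t * V.valuation (algebraMap A F d) < 1 := by
      calc V.valuation t * V.valuation (algebraMap A F d) ≤ V.valuation t * 1 := by
            gcongr
            exact hV1 d
        _ < 1 := by rw [mul_one]; exact htv
    rw [h2] at h3
    exact lt_irrefl _ h3

end Pool.Agent.H81.PC
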