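import Pool.Agent.H81.PC.Val

namespace Pool.Agent.H81.PC

open Polynomial

universe u v w

variable {A : Type u} {F : Type v} [CommRing A] [Field F] [Algebra A F]

section gen

variable [IsDomain A] [IsFractionRing A F] [IsIntegrallyClosed A] [IsNoetherianRing A]

/-- a prime ideal of the form `(A : w)` is locally principal -/
theorem exists_gen (𝔮 : Ideal A) [h𝔮p : 𝔮.IsPrime] (w : F)
    (hw' : ∀ r : A, r ∈ 𝔮 ↔ ∃ a : A, algebraMap A F a = algebraMap A F r * w) :
    ∃ m ∈ 𝔮, ∃ u : A, u ∉ 𝔮 ∧ algebraMap A F u = algebraMap A F m * w := by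
  have hinj : Function.Injective (algebraMap A F) := IsFractionRing.injective A F
  by_contra hno
  push Not at hno
  have hint : IsIntegral A w := by
    by_cases hbot : 𝔮 = ⊥
    · exfalso
      have h1 : ∀ r : A, r ≠ 0 → ∀ a : A, algebraMap A F a ≠ algebraMap A F r * w := by
        intro r hr a ha
        have : r ∈ 𝔮 := (hw' r).mpr ⟨a, ha⟩
        rw [hbot] at this
        exact hr this
      obtain ⟨a, d, hd, hda⟩ := IsFractionRing.div_surjective (A := A) w
      have hd0 : d ≠ 0 := nonZeroDivisors.ne_zero hd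
      apply h1 d hd0 a
      have hd1 : algebraMap A F d ≠ 0 := by
        intro h0
        exact hd0 (hinj (by rw [h0, map_zero]))
      rw [← hda]
      field_simp
    · refine isIntegral_of_smul_mem_submodule (M := F)
        (Submodule.map (Algebra.linearMap A F) 𝔮) ?_ ?_ w ?_
      · intro h0
        apply hbot
        rw [eq_bot_iff]
        intro x hx
        have : algebraMap A F x ∈ Submodule.map (Algebra.linearMap A F) 𝔮 := ⟨x, hx, rfl⟩
        rw [h0, Submodule.mem_bot] at this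
        exact hinj (by rw [this, map_zero])
      · exact (IsNoetherian.noetherian 𝔮).map _
      · rintro _ ⟨x, hx, rfl⟩
        obtain ⟨a, ha⟩ := (hw' x).mp hx
        refine ⟨a, ?_, ?_⟩
        · by_contra ha𝔮
          exact hno x hx a ha𝔮 ha
        · rw [Algebra.linearMap_apply, Algebra.linearMap_apply, ha, smul_eq_mul, mul_comm]
  obtain ⟨a, ha⟩ := IsIntegrallyClosed.isIntegral_iff.mp hint
  apply h𝔮p.ne_top
  rw [Ideal.eq_top_iff_one, hw']
  exact ⟨a, by rw [map_one, one_mul, ha]⟩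

omit [IsDomain A] [IsFractionRing A F] [IsIntegrallyClosed A] in
/-- the minimal primes of the ideal of denominators of a fraction -/
theorem exists_colon (f : F) (𝔮 : Ideal A)
    (h𝔮 : 𝔮 ∈ ((LinearMap.range (Algebra.linearMap A F)).colon {f}).minimalPrimes) :
    ∃ w : F, ∀ r : A, r ∈ 𝔮 ↔ ∃ a : A, algebraMap A F a = algebraMap A F r * w := by
  obtain ⟨w, hw⟩ := Submodule.exists_eq_colon_of_mem_minimalPrimes h𝔮
  refine ⟨w, fun r => ?_⟩
  rw [hw, Submodule.mem_colon_singleton, LinearMap.mem_range, Algebra.smul_def]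
  rfl

/-- a fraction over a normal domain that is regular at all primes of height at most one below
`𝔪` is regular at `𝔪` -/
theorem regAt_of_height (𝔪 : Ideal A) [h𝔪 : 𝔪.IsPrime] (f : F)
    (h : ∀ 𝔮 : Ideal A, 𝔮.IsPrime → 𝔮 ≤ 𝔪 → 𝔮.height ≤ 1 → RegAt 𝔮 f) : RegAt 𝔪 f := by
  by_contra hcon
  have hinj : Function.Injective (algebraMap A F) := IsFractionRing.injective A F
  have hN : ∀ y : F, y ∈ LinearMap.range (Algebra.linearMap A F) ↔
      ∃ a : A, algebraMap A F a = y := fun y => Iff.rfl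
  have hJ : (LinearMap.range (Algebra.linearMap A F)).colon {f} ≤ 𝔪 := by
    intro d hd
    rw [Submodule.mem_colon_singleton, hN] at hd
    obtain ⟨a, ha⟩ := hd
    by_contra hd𝔪
    apply hcon
    refine ⟨a, d, hd𝔪, ?_⟩
    rw [ha, Algebra.smul_def, mul_comm]
  obtain ⟨𝔮, h𝔮, h𝔮𝔪⟩ := Ideal.exists_minimalPrimes_le hJ
  have h𝔮p : 𝔮.IsPrime := h𝔮.isPrime
  obtain ⟨w, hw'⟩ := exists_colon f 𝔮 h𝔮
  obtain ⟨m, hm, u, hu, hum⟩ := exists_gen 𝔮 w hw'
  have hmin : 𝔮 ∈ (Ideal.span {m}).minimalPrimes := by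
    refine ⟨⟨h𝔮p, ?_⟩, ?_⟩
    · rw [Ideal.span_le, Set.singleton_subset_iff]
      exact hm
    · rintro 𝔮' ⟨h𝔮', hm'⟩ hle a ha
      obtain ⟨b, hb⟩ := (hw' a).mp ha
      have h1 : a * u = m * b := by
        apply hinj
        rw [map_mul, map_mul, hum, hb]
        ring
      have h2 : a * u ∈ 𝔮' := by
        rw [h1]
        exact 𝔮'.mul_mem_right _ (hm' (Ideal.mem_span_singleton_self m))
      exact (h𝔮'.mem_or_mem h2).resolve_right (fun h3 => hu (hle h3))
  have hheight := Ideal.height_le_one_of_isPrincipal_of_mem_minimalPrimes _ 𝔮 hmin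
  obtain ⟨a, d, hd, hda⟩ := h 𝔮 h𝔮p h𝔮𝔪 hheight
  apply hd
  apply h𝔮.1.2
  rw [Submodule.mem_colon_singleton, hN]
  exact ⟨a, by rw [Algebra.smul_def, mul_comm, hda]⟩

/-- a uniformiser at a prime minimal over a principal ideal -/
theorem exists_unif (𝔭 : Ideal A) [h𝔭 : 𝔭.IsPrime] {a : A} (ha : a ≠ 0)
    (hmin : 𝔭 ∈ (Ideal.span {a}).minimalPrimes) (F : Type v) [Field F] [Algebra A F]
    [IsFractionRing A F] :
    ∃ m ∈ 𝔭, m ≠ 0 ∧ ∀ x : A, x ≠ 0 → ∃ (n : ℕ) (u d : A), u ∉ 𝔭 ∧ d ∉ 𝔭 ∧ x * d = m ^ n * u := by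
  have hinj : Function.Injective (algebraMap A F) := IsFractionRing.injective A F
  have ha1 : algebraMap A F a ≠ 0 := by
    intro h0
    exact ha (hinj (by rw [h0, map_zero]))
  have hcol : (LinearMap.range (Algebra.linearMap A F)).colon {(algebraMap A F a)⁻¹} =
      Ideal.span {a} := by
    ext d
    rw [Submodule.mem_colon_singleton, LinearMap.mem_range, Ideal.mem_span_singleton]
    constructor
    · rintro ⟨y, hy⟩
      refine ⟨y, ?_⟩
      apply hinj
      rw [map_mul]
      have hy' : algebraMap A F y = algebraMap A F d * (algebraMap A F a)⁻¹ := by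
        rw [← Algebra.smul_def]; exact hy
      rw [hy']
      field_simp
    · rintro ⟨y, rfl⟩
      refine ⟨y, ?_⟩
      rw [Algebra.linearMap_apply, Algebra.smul_def, map_mul]
      field_simp
  rw [← hcol] at hmin
  obtain ⟨w, hw'⟩ := exists_colon _ 𝔭 hmin
  obtain ⟨m, hm, u, hu, hum⟩ := exists_gen 𝔭 w hw'
  have hm0 : m ≠ 0 := by
    rintro rfl
    rw [map_zero, zero_mul] at hum
    exact hu (by rw [hinj (hum.trans (map_zero _).symm)]; exact 𝔭.zero_mem)
  refine ⟨m, hm, hm0, ?_⟩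
  intro x hx
  let D := Localization.AtPrime 𝔭
  have hDdom : IsDomain D :=
    IsLocalization.isDomain_localization 𝔭.primeCompl_le_nonZeroDivisors
  have hDnoeth : IsNoetherianRing D := IsLocalization.isNoetherianRing 𝔭.primeCompl D ‹_›
  have hDinj : Function.Injective (algebraMap A D) :=
    IsLocalization.injective D 𝔭.primeCompl_le_nonZeroDivisors
  have hmu : ¬ IsUnit (algebraMap A D m) := by
    rw [IsLocalization.AtPrime.isUnit_to_map_iff D 𝔭 m]
    exact fun h => h hm
  have hx0 : algebraMap A D x ≠ 0 := by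
    intro h0
    exact hx (hDinj (by rw [h0, map_zero]))
  obtain ⟨n, y, hy, hxy⟩ := (FiniteMultiplicity.of_not_isUnit hmu hx0).exists_eq_pow_mul_and_not_dvd
    |> fun ⟨y, h1, h2⟩ => (⟨_, y, h2, h1⟩ : ∃ (n : ℕ) (y : D), ¬ algebraMap A D m ∣ y ∧
      algebraMap A D x = algebraMap A D m ^ n * y)
  obtain ⟨⟨b, e⟩, hbe⟩ := IsLocalization.surj 𝔭.primeCompl y
  have hb : b ∉ 𝔭 := by
    intro hb
    apply hy
    obtain ⟨c, hc⟩ := (hw' b).mp hb
    have h1 : b * u = m * c := by
      apply hinj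
      rw [map_mul, map_mul, hum, hc]
      ring
    have hu' : IsUnit (algebraMap A D u) := by
      rw [IsLocalization.AtPrime.isUnit_to_map_iff D 𝔭 u]
      exact hu
    have he' : IsUnit (algebraMap A D (e : A)) := IsLocalization.map_units _ e
    have h2 : algebraMap A D m ∣ y * (algebraMap A D (e : A) * algebraMap A D u) := by
      refine ⟨algebraMap A D c, ?_⟩
      rw [← mul_assoc, hbe, ← map_mul, h1, map_mul]
    exact ((he'.mul hu').dvd_mul_right).mp h2
  refine ⟨n, b, e, hb, e.2, ?_⟩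
  apply hDinj
  rw [map_mul, map_mul, map_pow, ← hbe, hxy]
  ring

end gen

end Pool.Agent.H81.PC
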