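import Pool.Agent.H81.PC.Krull
import Pool.Agent.H81.PC.Defs

namespace Pool.Agent.H81.PC

open Polynomial

universe u v w

variable {k : Type w} {A : Type u} {F : Type v} [Field k] [CommRing A] [Field F] [Algebra A F]
  [Algebra k A] [Algebra k F] [IsScalarTower k A F]

theorem bounded (B : Subalgebra A F) {p : A} {q : B}
    (hint : ProperPair k (algebraMap A B p) q) (V : ValuationSubring F)
    (hA : ∀ a : A, V.valuation (algebraMap A F a) ≤ 1) (hq : V.valuation (q : F) ≤ 1) (b : B) :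
    V.valuation (b : F) ≤ 1 := by
  have hadj : ∀ a ∈ Algebra.adjoin k ({algebraMap A B p, q} : Set B), (a : F) ∈ V := by
    intro a ha
    induction ha using Algebra.adjoin_induction with
    | mem x hx =>
      rw [← V.valuation_le_one_iff]
      rcases hx with rfl | hx
      · exact hA p
      · rw [Set.mem_singleton_iff] at hx
        rw [hx]
        exact hq
    | algebraMap r =>
      rw [← V.valuation_le_one_iff]
      have : ((algebraMap k B r : B) : F) = algebraMap A F (algebraMap k A r) :=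
        IsScalarTower.algebraMap_apply k A F r
      rw [this]
      exact hA _
    | add x y _ _ hx hy => exact V.add_mem _ _ hx hy
    | mul x y _ _ hx hy => exact V.mul_mem _ _ hx hy
  obtain ⟨P, hP, hP0⟩ := hint b
  let ψ : Algebra.adjoin k ({algebraMap A B p, q} : Set B) →+* V :=
    (B.val.toRingHom.comp
      (Algebra.adjoin k ({algebraMap A B p, q} : Set B)).val.toRingHom).codRestrict V.toSubring
      (fun a => hadj a a.2)
  have h7 : IsIntegral V (b : F) := by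
    refine ⟨P.map ψ, hP.map ψ, ?_⟩
    rw [eval₂_map]
    have h8 : (algebraMap V F).comp ψ =
        B.val.toRingHom.comp (algebraMap (Algebra.adjoin k ({algebraMap A B p, q} : Set B)) B) :=
      rfl
    have h9 : (b : F) = B.val.toRingHom b := rfl
    rw [h8, h9, ← hom_eval₂, hP0, map_zero]
  obtain ⟨z, hz⟩ := IsIntegrallyClosed.isIntegral_iff.mp h7
  rw [V.valuation_le_one_iff, ← hz]
  exact z.2

/-- no valuation ring centred on `V(𝔭)` contains `q` -/
theorem no_val {𝔭 : Ideal A} (B : Subalgebra A F) (h𝔭B : 𝔭.map (algebraMap A B) = ⊤) {p : A}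
    {q : B} (hint : ProperPair k (algebraMap A B p) q) (V : ValuationSubring F)
    (hA : ∀ a : A, V.valuation (algebraMap A F a) ≤ 1)
    (h𝔭 : ∀ a ∈ 𝔭, V.valuation (algebraMap A F a) < 1) : ¬ V.valuation (q : F) ≤ 1 := by
  intro hq
  have hB := bounded B hint V hA hq
  let j : B →+* V := B.val.toRingHom.codRestrict V.toSubring
    (fun b => (V.valuation_le_one_iff _).mp (hB b))
  have h1 : 𝔭.map (algebraMap A B) ≤ (IsLocalRing.maximalIdeal V).comap j := by
    rw [Ideal.map_le_iff_le_comap]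
    intro a ha
    rw [Ideal.mem_comap, Ideal.mem_comap]
    exact (V.valuation_lt_one_iff _).mpr (h𝔭 a ha)
  rw [h𝔭B] at h1
  have h2 : (1 : B) ∈ (IsLocalRing.maximalIdeal V).comap j := h1 trivial
  rw [Ideal.mem_comap, map_one] at h2
  exact (IsLocalRing.maximalIdeal.isMaximal V).ne_top ((Ideal.eq_top_iff_one _).mpr h2)

/-- `1 / q` is regular near `V(𝔭)` and its zero set is `V(𝔭)` -/
theorem step_one [IsDomain A] [IsFractionRing A F] [IsIntegrallyClosed A] {𝔭 : Ideal A}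
    {B : Subalgebra A F} (hc : IsComplement 𝔭 B) {p : A} {q : B}
    (hint : ProperPair k (algebraMap A B p) q) (𝔪 : Ideal A) (h𝔪 : 𝔪.IsPrime) (h𝔭𝔪 : 𝔭 ≤ 𝔪) :
    ∃ a d : A, d ∉ 𝔪 ∧ (q : F) * algebraMap A F a = algebraMap A F d ∧
      ∀ 𝔮 : Ideal A, 𝔮.IsPrime → 𝔮 ≤ 𝔪 → (a ∈ 𝔮 ↔ 𝔭 ≤ 𝔮) := by
  have hinj : Function.Injective (algebraMap A F) := IsFractionRing.injective A F
  have hq0 : (q : F) ≠ 0 := by
    intro h0
    obtain ⟨V, h1, h2, _⟩ := exists_dom (F := F) 𝔪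
    apply no_val B hc.map_eq hint V h1 (fun a ha => h2 a (h𝔭𝔪 ha))
    rw [h0, map_zero]
    exact zero_le
  rcases dichotomy hq0 𝔪 with ⟨V, h1, h2, h3⟩ | ⟨a, d, hd, had⟩
  · exact absurd h2 (no_val B hc.map_eq hint V h1 (fun a ha => h3 a (h𝔭𝔪 ha)))
  · refine ⟨a, d, hd, had, fun 𝔮 h𝔮 h𝔮𝔪 => ⟨fun ha => ?_, fun h𝔭𝔮 => ?_⟩⟩
    · by_contra h𝔭𝔮
      obtain ⟨b, e, he, hbe⟩ := hc.regular 𝔮 h𝔮 h𝔭𝔮 q q.2
      have h1 : a * b = d * e := by
        apply hinj
        rw [map_mul, map_mul, ← hbe, ← had]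
        ring
      have h2 : d * e ∈ 𝔮 := by rw [← h1]; exact 𝔮.mul_mem_right _ ha
      exact (h𝔮.mem_or_mem h2).elim (fun h => hd (h𝔮𝔪 h)) he
    · by_contra ha
      obtain ⟨V, h1, h2, h3⟩ := exists_dom (F := F) 𝔮
      apply no_val B hc.map_eq hint V h1 (fun a ha => h2 a (h𝔭𝔮 ha))
      have h4 := congrArg V.valuation had
      rw [map_mul, h3 a ha, mul_one] at h4
      rw [h4]
      exact h1 d

theorem not_height [IsDomain A] {𝔞 𝔟 : Ideal A} (h𝔞 : 𝔞.IsPrime) (h𝔟 : 𝔟.IsPrime) (h0 : 𝔞 ≠ ⊥)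
    (h : 𝔞 < 𝔟) : ¬ 𝔟.height ≤ 1 := by
  intro h1
  have hb : (⊥ : Ideal A).IsPrime := Ideal.isPrime_bot
  have h2 := Ideal.height_add_one_le_of_lt_of_isPrime (I := (⊥ : Ideal A)) (J := 𝔞)
    (bot_lt_iff_ne_bot.mpr h0)
  have h3 := Ideal.height_add_one_le_of_lt_of_isPrime (I := 𝔞) (J := 𝔟) h
  have h4 : (1 : ℕ∞) ≤ 𝔞.height := le_trans (by simp) h2
  have h5 : (1 : ℕ∞) + 1 ≤ 𝔟.height := le_trans (by gcongr) h3
  have h6 := h5.trans h1
  norm_num at h6

end Pool.Agent.H81.PC
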