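import Pool.Agent.H81.PC.Main

namespace Pool.Agent.H81.PC

open Polynomial

universe u v w

/-- The coordinate ring of the affine modification of `Spec A` along `g = 0` with exceptional
divisor `V`: the fractions `f = a / g ^ n` with `a` in `A` that belong to the valuation ring
`V` of the field of fractions. -/
def modif {A : Type u} {F : Type v} [CommRing A] [Field F] [Algebra A F] (g : A)
    (V : ValuationSubring F) (hV : ∀ a : A, algebraMap A F a ∈ V) : Subalgebra A F where
  carrier := {f | f ∈ V ∧ ∃ (n : ℕ) (a : A), f * algebraMap A F g ^ n = algebraMap A F a}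
  mul_mem' := by
    rintro f f' ⟨hf, n, a, h⟩ ⟨hf', n', a', h'⟩
    refine ⟨V.mul_mem _ _ hf hf', n + n', a * a', ?_⟩
    rw [map_mul, ← h, ← h', pow_add]
    ring
  add_mem' := by
    rintro f f' ⟨hf, n, a, h⟩ ⟨hf', n', a', h'⟩
    refine ⟨V.add_mem _ _ hf hf', n + n', a * g ^ n' + a' * g ^ n, ?_⟩
    rw [map_add, map_mul, map_mul, map_pow, map_pow, ← h, ← h', pow_add]
    ring
  algebraMap_mem' := by
    intro a
    exact ⟨hV a, 0, a, by rw [pow_zero, mul_one]⟩

section

variable {A : Type u} {F : Type v} [CommRing A] [Field F] [Algebra A F]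
  [Algebra ℂ A] [Algebra ℂ F] [IsScalarTower ℂ A F]

omit [Algebra ℂ A] in
/-- prime powers and divisibility -/
theorem pow_dvd_of_prime [IsDomain A] {g : A} (hg : Prime g) {f : A} (hf : ¬ g ∣ f) :
    ∀ (n : ℕ) (a d : A), f * a = d * g ^ n → ∃ a' : A, f * a' = d := by
  intro n
  induction n with
  | zero => intro a d h; exact ⟨a, by rw [h, pow_zero, mul_one]⟩
  | succ n ih =>
    intro a d h
    have h1 : g ∣ f * a := ⟨d * g ^ n, by rw [h]; ring⟩
    obtain ⟨b, rfl⟩ := (hg.dvd_or_dvd h1).resolve_left hf
    apply ih b d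
    apply mul_left_cancel₀ hg.ne_zero
    calc g * (f * b) = f * (g * b) := by ring
      _ = g * (d * g ^ n) := by rw [h]; ring

/-- affine modifications with centre on a curve with a cusp -/
theorem modif_not_proper [IsDomain A] [IsFractionRing A F] [IsIntegrallyClosed A] {g : A}
    (V : ValuationSubring F) (hV : ∀ a : A, algebraMap A F a ∈ V) (φ : A →ₐ[ℂ] ℂ[X])
    (hφ : RingHom.ker φ = Ideal.span {g}) (hg0 : g ≠ 0) {x₀ z₀ : ℂ} (hne : z₀ ≠ x₀)
    (hcusp : ∀ f : A, (derivative (φ f)).eval x₀ = 0)
    (hsep : ∀ z : ℂ, z ≠ z₀ → ∃ a : A, (φ a).eval z ≠ (φ a).eval z₀)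
    (hcen : ∀ a : A, V.valuation (algebraMap A F a) < 1 ↔ (φ a).eval z₀ = 0)
    (harch : ∀ a : A, (φ a).eval z₀ = 0 →
      ∃ n : ℕ, V.valuation (algebraMap A F a) ^ n ≤ V.valuation (algebraMap A F g))
    (p : A) (q : modif g V hV) : ¬ ProperPair ℂ (algebraMap A (modif g V hV) p) q := by
  intro hint
  have hinj : Function.Injective (algebraMap A F) := IsFractionRing.injective A F
  have hg : Prime g := by
    rw [← Ideal.span_singleton_prime hg0, ← hφ]
    exact RingHom.ker_isPrime _
  have hφg : ∀ a : A, φ a = 0 ↔ g ∣ a := by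
    intro a
    rw [← Ideal.mem_span_singleton, ← hφ]
    exact Iff.rfl
  have hg0' : algebraMap A F g ≠ 0 := by
    intro h0
    exact hg0 (hinj (by rw [h0, map_zero]))
  have hvg : V.valuation (algebraMap A F g) < 1 := by
    rw [hcen, (hφg g).mpr dvd_rfl, eval_zero]
  -- functions vanishing at `z₀` on the curve
  have htest : ∀ z : ℂ, z ≠ z₀ → ∃ h : A, (φ h).eval z₀ = 0 ∧ (φ h).eval z ≠ 0 := by
    intro z hz
    obtain ⟨a, ha⟩ := hsep z hz
    refine ⟨a - algebraMap ℂ A ((φ a).eval z₀), ?_, ?_⟩
    · rw [map_sub, AlgHom.commutes, eval_sub]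
      simp
    · rw [map_sub, AlgHom.commutes, eval_sub]
      simpa [sub_eq_zero] using ha
  have hmem : ∀ h : A, (φ h).eval z₀ = 0 → ∃ n : ℕ,
      algebraMap A F (h ^ n) / algebraMap A F g ∈ modif g V hV := by
    intro h hh
    obtain ⟨n, hn⟩ := harch h hh
    refine ⟨n, ?_, 1, h ^ n, ?_⟩
    · rw [← V.valuation_le_one_iff, map_div₀, map_pow, map_pow]
      exact div_le_one_of_le₀ hn zero_le
    · rw [pow_one, div_mul_cancel₀ _ hg0']
  obtain ⟨hqV, hqn⟩ := q.2
  -- minimal pole order
  classical
  set n := Nat.find hqn with hn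
  obtain ⟨f, hf⟩ := Nat.find_spec hqn
  rw [← hn] at hf
  rcases Nat.eq_zero_or_pos n with h0 | hpos
  · -- no pole
    rw [h0, pow_zero, mul_one] at hf
    obtain ⟨h, hh0, hh1⟩ := htest x₀ hne.symm
    obtain ⟨N, hN⟩ := hmem h hh0
    have hA : ∀ a ∈ Algebra.adjoin ℂ ({algebraMap A (modif g V hV) p, q} :
        Set (modif g V hV)), ∃ b : A, algebraMap A F b = a := by
      intro a ha
      induction ha using Algebra.adjoin_induction with
      | mem x hx =>
        rcases hx with rfl | hx
        · exact ⟨p, rfl⟩
        · rw [Set.mem_singleton_iff] at hx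
          rw [hx]
          exact ⟨f, hf.symm⟩
      | algebraMap r =>
        refine ⟨algebraMap ℂ A r, ?_⟩
        exact (IsScalarTower.algebraMap_apply ℂ A F r).symm
      | add x y _ _ hx hy =>
        obtain ⟨b, hb⟩ := hx
        obtain ⟨c, hc⟩ := hy
        exact ⟨b + c, by rw [map_add, hb, hc]; rfl⟩
      | mul x y _ _ hx hy =>
        obtain ⟨b, hb⟩ := hx
        obtain ⟨c, hc⟩ := hy
        exact ⟨b * c, by rw [map_mul, hb, hc]; rfl⟩
    obtain ⟨P, hP, hP0⟩ := hint ⟨_, hN⟩
    let S := (algebraMap A F).range
    let ψ : Algebra.adjoin ℂ ({algebraMap A (modif g V hV) p, q} :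
        Set (modif g V hV)) →+* S :=
      ((modif g V hV).val.toRingHom.comp (Algebra.adjoin ℂ ({algebraMap A (modif g V hV) p, q} :
        Set (modif g V hV))).val.toRingHom).codRestrict S (fun a => hA a a.2)
    have h7 : IsIntegral S (algebraMap A F (h ^ N) / algebraMap A F g) := by
      refine ⟨P.map ψ, hP.map ψ, ?_⟩
      rw [eval₂_map]
      have h8 : (algebraMap S F).comp ψ = (modif g V hV).val.toRingHom.comp
          (algebraMap (Algebra.adjoin ℂ ({algebraMap A (modif g V hV) p, q} :
            Set (modif g V hV))) (modif g V hV)) := rfl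
      have h9 : algebraMap A F (h ^ N) / algebraMap A F g =
          (modif g V hV).val.toRingHom ⟨_, hN⟩ := rfl
      rw [h8, h9, ← hom_eval₂, hP0, map_zero]
    have h10 : IsIntegral A (algebraMap A F (h ^ N) / algebraMap A F g) := by
      obtain ⟨P', hP', hP0'⟩ := h7
      let e : A ≃+* S := RingEquiv.ofBijective (algebraMap A F).rangeRestrict
        ⟨fun a b hab => hinj (congrArg Subtype.val hab), (algebraMap A F).rangeRestrict_surjective⟩
      refine ⟨P'.map e.symm.toRingHom, hP'.map _, ?_⟩
      rw [eval₂_map]
      have h8 : (algebraMap A F).comp e.symm.toRingHom = algebraMap S F := by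
        ext s
        obtain ⟨a, rfl⟩ := e.surjective s
        simp only [RingHom.comp_apply, RingEquiv.toRingHom_eq_coe, RingHom.coe_coe,
          RingEquiv.symm_apply_apply]
        rfl
      rw [h8]
      exact hP0'
    obtain ⟨b, hb⟩ := IsIntegrallyClosed.isIntegral_iff.mp h10
    have h11 : g ∣ h ^ N := by
      refine ⟨b, ?_⟩
      apply hinj
      rw [map_mul, hb]
      field_simp
    have h12 := (hφg h).mpr (hg.dvd_of_dvd_pow h11)
    rw [h12, eval_zero] at hh1
    exact hh1 rfl
  · have hgf : ¬ g ∣ f := by
      rintro ⟨f', rfl⟩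
      have h1 : n - 1 < n := by omega
      apply Nat.find_min hqn h1
      refine ⟨f', ?_⟩
      apply mul_right_cancel₀ hg0'
      rw [mul_assoc, ← pow_succ, show n - 1 + 1 = n by omega, hf, map_mul]
      ring
    have hf0 : f ≠ 0 := by
      rintro rfl
      exact hgf (dvd_zero g)
    have hf0' : algebraMap A F f ≠ 0 := by
      intro h0
      exact hf0 (hinj (by rw [h0, map_zero]))
    have hφf : φ f ≠ 0 := fun h0 => hgf ((hφg f).mp h0)
    have hfz₀ : (φ f).eval z₀ = 0 := by
      rw [← hcen, ← hf, map_mul, map_pow]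
      calc V.valuation (q : F) * V.valuation (algebraMap A F g) ^ n
          ≤ 1 * V.valuation (algebraMap A F g) ^ n := by
            gcongr
            exact (V.valuation_le_one_iff _).mpr hqV
        _ < 1 := by rw [one_mul]; exact pow_lt_one₀ zero_le hvg hpos.ne'
    have hq0 : (q : F) ≠ 0 := by
      intro h0
      rw [h0, zero_mul] at hf
      exact hf0' hf.symm
    have hroot : ∀ z : ℂ, z ≠ z₀ → (φ f).eval z ≠ 0 := by
      intro z hz hfz
      let ψ : A →+* ℂ := (evalRingHom z).comp (φ : A →+* ℂ[X])
      have hψ : ∀ a : A, a ∈ RingHom.ker ψ ↔ (φ a).eval z = 0 := fun a => Iff.rfl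
      have : (RingHom.ker ψ).IsPrime := RingHom.ker_isPrime ψ
      rcases dichotomy hq0 (RingHom.ker ψ) with ⟨W, h1, h2, h3⟩ | ⟨a, d, hd, had⟩
      · have hB := bounded (modif g V hV) hint W h1 h2
        obtain ⟨h, hh0, hh1⟩ := htest z hz
        obtain ⟨N, hN⟩ := hmem h hh0
        have h4 := hB ⟨_, hN⟩
        -- the value of `h` is one
        have h5 : W.valuation (algebraMap A F h) = 1 := by
          apply le_antisymm (h1 h)
          by_contra hcon
          rw [not_le] at hcon
          have h6 : h - algebraMap ℂ A ((φ h).eval z) ∈ RingHom.ker ψ := by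
            rw [hψ, map_sub, AlgHom.commutes, eval_sub]
            simp
          have h7 := h3 _ h6
          rw [map_sub] at h7
          have h8 : W.valuation (algebraMap A F (algebraMap ℂ A ((φ h).eval z))) < 1 := by
            have h9 : algebraMap A F (algebraMap ℂ A ((φ h).eval z)) = algebraMap A F h -
              (algebraMap A F h - algebraMap A F (algebraMap ℂ A ((φ h).eval z))) := by ring
            rw [h9]
            exact lt_of_le_of_lt (W.valuation.map_sub _ _) (max_lt hcon h7)
          have h10 := h1 (algebraMap ℂ A ((φ h).eval z)⁻¹)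
          have h11 : algebraMap A F (algebraMap ℂ A ((φ h).eval z)) *
              algebraMap A F (algebraMap ℂ A ((φ h).eval z)⁻¹) = 1 := by
            rw [← map_mul, ← map_mul, mul_inv_cancel₀ hh1, map_one, map_one]
          have h12 := congrArg W.valuation h11
          rw [map_mul, map_one] at h12
          have h13 : W.valuation (algebraMap A F (algebraMap ℂ A ((φ h).eval z))) *
              W.valuation (algebraMap A F (algebraMap ℂ A ((φ h).eval z)⁻¹)) < 1 := by
            calc _ ≤ W.valuation (algebraMap A F (algebraMap ℂ A ((φ h).eval z))) * 1 := by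
                  gcongr
              _ < 1 := by rw [mul_one]; exact h8
          rw [h12] at h13
          exact lt_irrefl _ h13
        have h6 : W.valuation (algebraMap A F g) < 1 := by
          apply h3
          rw [hψ, (hφg g).mpr dvd_rfl, eval_zero]
        have h7 : algebraMap A F (h ^ N) =
            (algebraMap A F (h ^ N) / algebraMap A F g) * algebraMap A F g := by
          rw [div_mul_cancel₀ _ hg0']
        have h8 := congrArg W.valuation h7
        rw [map_mul, map_pow, map_pow, h5, one_pow] at h8
        have h9 : W.valuation (algebraMap A F h ^ N / algebraMap A F g) *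
            W.valuation (algebraMap A F g) < 1 := by
          calc _ ≤ 1 * W.valuation (algebraMap A F g) := by
                gcongr
                rw [← map_pow]
                exact h4
            _ < 1 := by rw [one_mul]; exact h6
        rw [← h8] at h9
        exact lt_irrefl _ h9
      · have h1 : f * a = d * g ^ n := by
          apply hinj
          rw [map_mul, map_mul, map_pow, ← hf, ← had]
          ring
        obtain ⟨a', ha'⟩ := pow_dvd_of_prime hg hgf n a d h1
        apply hd
        rw [hψ, ← ha', map_mul, eval_mul, hfz, zero_mul]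
    have hset : (φ f).rootSet ℂ = {z₀} := by
      ext z
      rw [mem_rootSet_of_ne hφf, Set.mem_singleton_iff]
      constructor
      · intro h1
        by_contra hz
        exact hroot z hz (by simpa using h1)
      · rintro rfl
        simpa using hfz₀
    have hdeg : 0 < (φ f).degree := by
      by_contra hcon
      have h2 := eq_C_of_degree_le_zero (not_lt.mp hcon)
      rw [h2, eval_C] at hfz₀
      rw [hfz₀, map_zero] at h2
      exact hφf h2
    have hx₀ : x₀ ∈ (derivative (φ f)).rootSet ℂ := by
      rw [mem_rootSet_of_ne]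
      · simpa using hcusp f
      · intro h0
        have := derivative_eq_zero.mp h0
        rw [natDegree_eq_zero_iff_degree_le_zero] at this
        exact absurd hdeg (not_lt.mpr this)
    have := rootSet_derivative_subset_convexHull_rootSet hdeg hx₀
    rw [hset, convexHull_singleton, Set.mem_singleton_iff] at this
    exact hne this.symm

end

end Pool.Agent.H81.PC
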