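import Mathlib

namespace Pool.Agent.H81.PC

open Polynomial

universe u v w

variable {A : Type u} {F : Type v} [CommRing A] [Field F] [Algebra A F]

/-- The element `f` of the field of fractions is a fraction with denominator outside `𝔮`. -/
def RegAt (𝔮 : Ideal A) (f : F) : Prop :=
  ∃ a d : A, d ∉ 𝔮 ∧ f * algebraMap A F d = algebraMap A F a

/-- a fraction with numerator and denominator outside `𝔮` -/
def UnitAt (𝔮 : Ideal A) (f : F) : Prop :=
  ∃ a d : A, a ∉ 𝔮 ∧ d ∉ 𝔮 ∧ f * algebraMap A F d = algebraMap A F a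

theorem UnitAt.regAt {𝔮 : Ideal A} {f : F} (h : UnitAt 𝔮 f) : RegAt 𝔮 f := by
  obtain ⟨a, d, _, hd, h⟩ := h
  exact ⟨a, d, hd, h⟩

theorem RegAt.mul {𝔮 : Ideal A} [h𝔮 : 𝔮.IsPrime] {f g : F} (hf : RegAt 𝔮 f) (hg : RegAt 𝔮 g) :
    RegAt 𝔮 (f * g) := by
  obtain ⟨a, d, hd, h⟩ := hf
  obtain ⟨a', d', hd', h'⟩ := hg
  refine ⟨a * a', d * d', fun hh => (h𝔮.mem_or_mem hh).elim hd hd', ?_⟩
  rw [map_mul, map_mul, ← h, ← h']
  ring

theorem RegAt.one {𝔮 : Ideal A} [h𝔮 : 𝔮.IsPrime] : RegAt 𝔮 (1 : F) :=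
  ⟨1, 1, fun h => h𝔮.ne_top ((Ideal.eq_top_iff_one _).mpr h), by rw [one_mul]⟩

theorem RegAt.pow {𝔮 : Ideal A} [h𝔮 : 𝔮.IsPrime] {f : F} (hf : RegAt 𝔮 f) (n : ℕ) :
    RegAt 𝔮 (f ^ n) := by
  induction n with
  | zero => rw [pow_zero]; exact RegAt.one
  | succ n ih => rw [pow_succ]; exact ih.mul hf

theorem UnitAt.mul {𝔮 : Ideal A} [h𝔮 : 𝔮.IsPrime] {f g : F} (hf : UnitAt 𝔮 f)
    (hg : UnitAt 𝔮 g) : UnitAt 𝔮 (f * g) := by
  obtain ⟨a, d, ha, hd, h⟩ := hf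
  obtain ⟨a', d', ha', hd', h'⟩ := hg
  refine ⟨a * a', d * d', fun hh => (h𝔮.mem_or_mem hh).elim ha ha',
    fun hh => (h𝔮.mem_or_mem hh).elim hd hd', ?_⟩
  rw [map_mul, map_mul, ← h, ← h']
  ring

theorem UnitAt.one {𝔮 : Ideal A} [h𝔮 : 𝔮.IsPrime] : UnitAt 𝔮 (1 : F) := by
  have h1 : (1 : A) ∉ 𝔮 := fun h => h𝔮.ne_top ((Ideal.eq_top_iff_one _).mpr h)
  exact ⟨1, 1, h1, h1, by rw [one_mul]⟩

theorem UnitAt.pow {𝔮 : Ideal A} [h𝔮 : 𝔮.IsPrime] {f : F} (hf : UnitAt 𝔮 f) (n : ℕ) :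
    UnitAt 𝔮 (f ^ n) := by
  induction n with
  | zero => rw [pow_zero]; exact UnitAt.one
  | succ n ih => rw [pow_succ]; exact ih.mul hf

theorem alg_ne_zero [IsDomain A] [IsFractionRing A F] {𝔮 : Ideal A} {a : A} (ha : a ∉ 𝔮) :
    algebraMap A F a ≠ 0 := by
  intro h
  apply ha
  have : a = 0 := by
    apply IsFractionRing.injective A F
    rw [h, map_zero]
  rw [this]
  exact 𝔮.zero_mem

theorem UnitAt.inv [IsDomain A] [IsFractionRing A F] {𝔮 : Ideal A} {f : F}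
    (hf : UnitAt 𝔮 f) : UnitAt 𝔮 f⁻¹ := by
  obtain ⟨a, d, ha, hd, h⟩ := hf
  refine ⟨d, a, hd, ha, ?_⟩
  have hd0 := alg_ne_zero (F := F) hd
  have ha0 := alg_ne_zero (F := F) ha
  have hf0 : f ≠ 0 := by
    rintro rfl
    rw [zero_mul] at h
    exact ha0 h.symm
  rw [← h]
  field_simp

theorem UnitAt.zpow [IsDomain A] [IsFractionRing A F] {𝔮 : Ideal A} [h𝔮 : 𝔮.IsPrime] {f : F}
    (hf : UnitAt 𝔮 f) (n : ℤ) : UnitAt 𝔮 (f ^ n) := by
  obtain ⟨m, rfl | rfl⟩ := n.eq_nat_or_neg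
  · rw [zpow_natCast]; exact hf.pow m
  · rw [zpow_neg, zpow_natCast]; exact (hf.pow m).inv

/-- a valuation ring that dominates the local ring at `𝔮` -/
theorem exists_dom [IsDomain A] [IsFractionRing A F] (𝔮 : Ideal A) [h𝔮 : 𝔮.IsPrime] :
    ∃ V : ValuationSubring F, (∀ a : A, V.valuation (algebraMap A F a) ≤ 1) ∧
      (∀ a ∈ 𝔮, V.valuation (algebraMap A F a) < 1) ∧
      ∀ a ∉ 𝔮, V.valuation (algebraMap A F a) = 1 := by
  have hu : ∀ y : 𝔮.primeCompl, IsUnit (algebraMap A F y) := fun y =>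
    isUnit_iff_ne_zero.mpr (alg_ne_zero y.2)
  let f : Localization.AtPrime 𝔮 →+* F := IsLocalization.lift hu
  have hf : ∀ a : A, f (algebraMap A _ a) = algebraMap A F a := fun a =>
    IsLocalization.lift_eq hu a
  obtain ⟨V, hV, hloc⟩ := IsLocalRing.exists_factor_valuationRing f
  have hmem : ∀ a : A, algebraMap A F a ∈ V := fun a => by
    rw [← hf]; exact hV _
  refine ⟨V, fun a => (V.valuation_le_one_iff _).mpr (hmem a), fun a ha => ?_, fun a ha => ?_⟩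
  · rw [lt_iff_le_and_ne]
    refine ⟨(V.valuation_le_one_iff _).mpr (hmem a), fun h => ?_⟩
    have h1 : IsUnit (f.codRestrict V.toSubring hV (algebraMap A _ a)) := by
      have h2 : IsUnit (⟨algebraMap A F a, hmem a⟩ : V) := (V.valuation_eq_one_iff _).mpr h
      have h3 : (⟨algebraMap A F a, hmem a⟩ : V) =
          f.codRestrict V.toSubring hV (algebraMap A _ a) := Subtype.ext (hf a).symm
      rw [← h3]
      exact h2
    have h4 := hloc.map_nonunit _ h1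
    rw [IsLocalization.AtPrime.isUnit_to_map_iff (Localization.AtPrime 𝔮) 𝔮 a] at h4
    exact h4 ha
  · have h1 : IsUnit (algebraMap A (Localization.AtPrime 𝔮) a) :=
      IsLocalization.map_units _ (⟨a, ha⟩ : 𝔮.primeCompl)
    have h2 := h1.map (f.codRestrict V.toSubring hV)
    have h3 : (⟨algebraMap A F a, hmem a⟩ : V) =
          f.codRestrict V.toSubring hV (algebraMap A _ a) := Subtype.ext (hf a).symm
    rw [← h3] at h2
    exact (V.valuation_eq_one_iff ⟨algebraMap A F a, hmem a⟩).mp h2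

/-- Chevalley's dichotomy -/
theorem dichotomy [IsDomain A] [IsFractionRing A F] [IsIntegrallyClosed A] {q : F}
    (hq : q ≠ 0) (𝔪 : Ideal A) [h𝔪 : 𝔪.IsPrime] :
    (∃ V : ValuationSubring F, (∀ a : A, V.valuation (algebraMap A F a) ≤ 1) ∧
      V.valuation q ≤ 1 ∧ ∀ a ∈ 𝔪, V.valuation (algebraMap A F a) < 1) ∨
    ∃ a d : A, d ∉ 𝔪 ∧ q * algebraMap A F a = algebraMap A F d := by
  let B := Algebra.adjoin A ({q} : Set F)
  by_cases hI : 𝔪.map (algebraMap A B) ⊔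
      Ideal.span {(⟨q, Algebra.subset_adjoin rfl⟩ : B)} = ⊤
  · right
    let _ := invertibleOfNonzero hq
    obtain ⟨p, hp, hpx⟩ :=
      Algebra.exists_aeval_invOf_eq_zero_of_idealMap_adjoin_sup_span_eq_top q 𝔪 h𝔪.ne_top hI
    have h1 := isIntegral_leadingCoeff_smul p _ hpx
    obtain ⟨a, ha⟩ := IsIntegrallyClosed.isIntegral_iff.mp h1
    refine ⟨a, p.leadingCoeff, ?_, ?_⟩
    · intro h
      have : (1 : A) ∈ 𝔪 := by
        have := 𝔪.sub_mem h hp
        simpa using this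
      exact h𝔪.ne_top ((Ideal.eq_top_iff_one _).mpr this)
    · rw [ha, Algebra.smul_def, invOf_eq_inv]
      field_simp
  · left
    obtain ⟨V, hV1, hV2⟩ := Ideal.image_subset_nonunits_valuationSubring
      (A := B.toSubring) _ hI
    refine ⟨V, fun a => ?_, ?_, fun a ha => ?_⟩
    · rw [V.valuation_le_one_iff]
      exact hV1 (B.algebraMap_mem a)
    · rw [V.valuation_le_one_iff]
      exact hV1 (Algebra.subset_adjoin rfl)
    · have h1 : algebraMap A F a ∈ V.nonunits :=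
        hV2 ⟨algebraMap A B a, Ideal.mem_sup_left (Ideal.mem_map_of_mem _ ha), rfl⟩
      exact (V.mem_nonunits_iff).mp h1

end Pool.Agent.H81.PC
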